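import Pool.Agent.Run7.h150.Pol.Windows

set_option autoImplicit false

/-!
# The criterion: splaying is optimal on sequences with small pair sums
-/

namespace Pool.Agent.Run7.h150.Pol

open Pool.Agent.H581R2.Splay Pool.Agent.TH49.Spl Pool.Agent.N724.TW Pool.Agent.Run7.h150.Rot
open Pool.Agent.Y395.SP

variable {n : ℕ} [NeZero n]

/-- the first `N` requests of the periodic sequence given by `X` -/
def reqs {n : ℕ} (X : ZMod n → ZMod n) (N : ℕ) : List ℕ :=
  (List.range N).map fun i : ℕ => (X (i : ZMod n)).val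

lemma reqs_mem (X : ZMod n → ZMod n) (N : ℕ) : ∀ x ∈ reqs X N, x < n := by
  intro x hx
  unfold reqs at hx
  rw [List.mem_map] at hx
  obtain ⟨i, -, rfl⟩ := hx
  exact ZMod.val_lt _

lemma reqs_length (X : ZMod n → ZMod n) (N : ℕ) : (reqs X N).length = N := by simp [reqs]

lemma alt_ge' {X : ZMod n → ZMod n} {B : ℝ} (hX : Pair X B) (hB0 : 0 ≤ B) {N : ℕ} (hN : n ≤ N)
    (S : Finset ℕ) (hS : ∀ e ∈ S, 10 ≤ e ∧ 2 ^ (e + 1) ≤ n ∧
      64 * n * B ≤ ((2 : ℝ) ^ (e - 1)) ^ 2) :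
    N * S.card ≤ 4096 * alt n (reqs X N) := by
  have hn : 0 < n := Nat.pos_of_ne_zero (NeZero.ne n)
  have hlt : ∀ e ∈ S, e < n := by
    intro e he
    have h1 := (hS e he).2.1
    have h2 : e + 1 < 2 ^ (e + 1) := Nat.lt_two_pow_self
    omega
  have h1 : ∀ e ∈ S, N ≤ 4096 * ∑ i ∈ Finset.range (2 ^ (n - 1 - e)),
      cnt (i * (2 * 2 ^ e)) (i * (2 * 2 ^ e) + 2 ^ e) ((i + 1) * (2 * 2 ^ e)) false
        (reqs X N) := by
    intro e he
    obtain ⟨he1, he2, he3⟩ := hS e he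
    obtain ⟨κ, hκ⟩ : ∃ κ, κ = 2 ^ (e - 1) := ⟨_, rfl⟩
    have hk : 2 ^ e = 2 * κ := by
      rw [hκ, ← pow_succ']; congr 1; omega
    have hκ512 : 512 ≤ κ := by
      rw [hκ]
      calc 512 = 2 ^ 9 := by norm_num
        _ ≤ 2 ^ (e - 1) := Nat.pow_le_pow_right (by norm_num) (by omega)
    have hcond : 64 * n * B ≤ (κ : ℝ) ^ 2 := by
      rw [hκ]; push_cast; exact he3
    rw [hk]
    set M := n / (2 * (2 * κ)) with hM
    have h4k : 4 * κ ≤ n := by rw [pow_succ, hk] at he2; omega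
    have hM1 : 1 ≤ M := by
      rw [hM]; exact Nat.div_pos (by omega) (by omega)
    have hP1 : 1 ≤ N / n := Nat.div_pos hN hn
    have hsub : Finset.range M ⊆ Finset.range (2 ^ (n - 1 - e)) := by
      intro i hi
      rw [Finset.mem_range] at hi ⊢
      apply CNT.bound (hlt e he)
      rw [hk]
      have : (i + 1) * (2 * (2 * κ)) ≤ M * (2 * (2 * κ)) := Nat.mul_le_mul_right _ (by omega)
      exact this.trans (Nat.div_mul_le_self n (2 * (2 * κ)))
    have hcell : ∀ i ∈ Finset.range M, (N / n) * κ ≤ 256 *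
        cnt (i * (2 * (2 * κ))) (i * (2 * (2 * κ)) + 2 * κ) ((i + 1) * (2 * (2 * κ))) false
          (reqs X N) := by
      intro i hi
      rw [Finset.mem_range] at hi
      have h3 : (i + 1) * (2 * (2 * κ)) ≤ n :=
        (Nat.mul_le_mul_right _ (by omega : i + 1 ≤ M)).trans
          (Nat.div_mul_le_self n (2 * (2 * κ)))
      have h4 : (i + 1) * (2 * (2 * κ)) = i * (2 * (2 * κ)) + 4 * κ := by ring
      have h5 := node_ge (l := i * (2 * (2 * κ))) (κ := κ) (N := N) hX hB0 hκ512 (by omega) hcond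
      rw [h4]
      exact h5
    have h8 : M * ((N / n) * κ) ≤ 256 * ∑ i ∈ Finset.range (2 ^ (n - 1 - e)),
      cnt (i * (2 * (2 * κ))) (i * (2 * (2 * κ)) + 2 * κ) ((i + 1) * (2 * (2 * κ))) false
        (reqs X N) := by
      calc M * ((N / n) * κ) = ∑ i ∈ Finset.range M, (N / n) * κ := by
            rw [Finset.sum_const, Finset.card_range, smul_eq_mul]
        _ ≤ ∑ i ∈ Finset.range M, 256 *
          cnt (i * (2 * (2 * κ))) (i * (2 * (2 * κ)) + 2 * κ) ((i + 1) * (2 * (2 * κ))) false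
            (reqs X N) := Finset.sum_le_sum hcell
        _ = 256 * ∑ i ∈ Finset.range M,
          cnt (i * (2 * (2 * κ))) (i * (2 * (2 * κ)) + 2 * κ) ((i + 1) * (2 * (2 * κ))) false
            (reqs X N) := by rw [Finset.mul_sum]
        _ ≤ _ := Nat.mul_le_mul_left _ (Finset.sum_le_sum_of_subset hsub)
    have h9 : N < (N / n + 1) * n := by
      rw [mul_comm]; exact Nat.lt_mul_div_succ N hn
    have h10 : n < (M + 1) * (2 * (2 * κ)) := by
      rw [mul_comm]; exact Nat.lt_mul_div_succ n (by omega)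
    have h11 : (N / n + 1) * n ≤ (2 * (N / n)) * n := Nat.mul_le_mul_right _ (by omega)
    have h12 : (M + 1) * (2 * (2 * κ)) ≤ (2 * M) * (2 * (2 * κ)) :=
      Nat.mul_le_mul_right _ (by omega)
    have h13 : (2 * (N / n)) * n ≤ (2 * (N / n)) * ((2 * M) * (2 * (2 * κ))) :=
      Nat.mul_le_mul_left _ (by omega)
    have h14 : (2 * (N / n)) * ((2 * M) * (2 * (2 * κ))) = 16 * (M * (N / n * κ)) := by
      ring
    omega
  have h2 : N * S.card ≤ ∑ e ∈ S, 4096 * ∑ i ∈ Finset.range (2 ^ (n - 1 - e)),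
      cnt (i * (2 * 2 ^ e)) (i * (2 * 2 ^ e) + 2 ^ e) ((i + 1) * (2 * 2 ^ e)) false
        (reqs X N) := by
    rw [mul_comm, ← smul_eq_mul]
    exact Finset.card_nsmul_le_sum _ _ _ h1
  refine h2.trans ?_
  rw [← Finset.mul_sum]
  refine Nat.mul_le_mul_left 4096 ?_
  unfold alt
  exact Finset.sum_le_sum_of_subset (fun e he => Finset.mem_range.2 (hlt e he))

lemma opt_ge' {X : ZMod n → ZMod n} {B : ℝ} (hX : Pair X B) (hB0 : 0 ≤ B) {N : ℕ} (hN : n ≤ N)
    (S : Finset ℕ) (hS : ∀ e ∈ S, 10 ≤ e ∧ 2 ^ (e + 1) ≤ n ∧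
      64 * n * B ≤ ((2 : ℝ) ^ (e - 1)) ^ 2) {T : Tr} (hT : keys T = List.range n) :
    (N : ℝ) * S.card ≤ 8192 * optAny (List.range n) (reqs X N) := by
  have h1 : ((N : ℝ) * S.card) / 8192 ≤ (optAny (List.range n) (reqs X N) : ℝ) := by
    refine optAny_ge hT fun T' c hT' hE => ?_
    have h2 := holds_VAL T' (reqs X N) c n (bst_range hT') (fun x hx => by
      rw [hT', List.mem_range]; exact reqs_mem X N x hx) hE
    have h3 := alt_ge' hX hB0 hN S hS
    have h4 : N * S.card ≤ 8192 * c := by omega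
    have h5 : ((N * S.card : ℕ) : ℝ) ≤ ((8192 * c : ℕ) : ℝ) := by exact_mod_cast h4
    push_cast at h5
    linarith
  linarith

lemma opt_len' (X : ZMod n → ZMod n) {N : ℕ} {T : Tr} (hT : keys T = List.range n) :
    (N : ℝ) ≤ optAny (List.range n) (reqs X N) := by
  refine optAny_ge hT fun T' c hT' hE => ?_
  have h2 := exec_length hE
  rw [reqs_length] at h2
  exact_mod_cast h2

lemma cost_le' (X : ZMod n → ZMod n) {N : ℕ} (hN : n ≤ N) {T : Tr}
    (hT : keys T = List.range n) :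
    (costSplay T (reqs X N) : ℝ) ≤ 8 * N + 14 * (N * Real.logb 2 n) := by
  have hn : 0 < n := Nat.pos_of_ne_zero (NeZero.ne n)
  have hne : T ≠ Tr.nil := by
    rintro rfl
    have h1 : (keys Tr.nil).length = (List.range n).length := by rw [hT]
    simp only [keys, List.length_nil, List.length_range] at h1
    omega
  have h1 := ws_holds T (reqs X N) (bst_range hT) hne (fun x hx => by
    rw [hT, List.mem_range]; exact reqs_mem X N x hx)
  have h2 := wsum_le (S := Finset.range n) (k := n) (by simp) (reqs X N) [] (by simp)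
    (fun y hy => Finset.mem_range.2 (reqs_mem X N y hy))
  rw [hT, List.length_range, reqs_length] at h1
  rw [reqs_length] at h2
  have h3 : 0 ≤ Real.logb 2 n := Real.logb_nonneg (by norm_num) (by exact_mod_cast hn)
  have h4 : (n : ℝ) * Real.logb 2 n ≤ N * Real.logb 2 n :=
    mul_le_mul_of_nonneg_right (by exact_mod_cast hN) h3
  linarith

/-- there are many scales -/
lemma many_scales {η : ℝ} (h0 : 0 < η) (h1 : η ≤ 1) (hL : 11 ≤ Real.logb 2 n) :
    ∃ S : Finset ℕ, η / 2 * Real.logb 2 n - 7 ≤ S.card ∧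
      ∀ e ∈ S, 10 ≤ e ∧ 2 ^ (e + 1) ≤ n ∧
        64 * n * (2 * (n : ℝ) ^ (1 - η)) ≤ ((2 : ℝ) ^ (e - 1)) ^ 2 := by
  have hn : 0 < n := Nat.pos_of_ne_zero (NeZero.ne n)
  have hnr : (0 : ℝ) < n := by exact_mod_cast hn
  set L := Real.logb 2 n with hLd
  have hnL : (n : ℝ) = 2 ^ L := by
    rw [hLd, Real.rpow_logb (by norm_num) (by norm_num) hnr]
  set a := ⌈(1 - η / 2) * L + 9 / 2⌉₊ with ha
  set b := ⌊L⌋₊ - 1 with hb
  refine ⟨Finset.Icc a b, ?_, ?_⟩
  · rw [Nat.card_Icc]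
    have h2 : (a : ℝ) < (1 - η / 2) * L + 9 / 2 + 1 :=
      Nat.ceil_lt_add_one (by nlinarith)
    have h3 : L < (⌊L⌋₊ : ℝ) + 1 := Nat.lt_floor_add_one L
    have h4 : 1 ≤ ⌊L⌋₊ := Nat.le_floor (by push_cast; linarith)
    have h5 : ((b : ℕ) : ℝ) = (⌊L⌋₊ : ℝ) - 1 := by
      rw [hb]; push_cast [Nat.cast_sub h4]; ring
    have h6 : ((b + 1 : ℕ) : ℝ) - a ≤ ((b + 1 - a : ℕ) : ℝ) := by
      rcases le_total a (b + 1) with h | h
      · rw [Nat.cast_sub h]
      · have h7 : ((b + 1 : ℕ) : ℝ) ≤ a := by exact_mod_cast h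
        have h8 : (0 : ℝ) ≤ ((b + 1 - a : ℕ) : ℝ) := by positivity
        linarith
    push_cast at h6
    linarith
  · intro e he
    rw [Finset.mem_Icc] at he
    obtain ⟨he1, he2⟩ := he
    have h2 : (1 - η / 2) * L + 9 / 2 ≤ a := Nat.le_ceil _
    have he1' : (a : ℝ) ≤ e := by exact_mod_cast he1
    have h10 : (10 : ℝ) ≤ (1 - η / 2) * L + 9 / 2 := by nlinarith
    have h10' : 10 ≤ e := by
      have : (10 : ℝ) ≤ e := by linarith
      exact_mod_cast this
    refine ⟨h10', ?_, ?_⟩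
    · have h4 : 1 ≤ ⌊L⌋₊ := Nat.le_floor (by push_cast; linarith)
      have h5 : e + 1 ≤ ⌊L⌋₊ := by omega
      have h6 : ((e + 1 : ℕ) : ℝ) ≤ L := by
        calc ((e + 1 : ℕ) : ℝ) ≤ (⌊L⌋₊ : ℝ) := by exact_mod_cast h5
          _ ≤ L := Nat.floor_le (by linarith)
      have h7 : ((2 ^ (e + 1) : ℕ) : ℝ) ≤ ((n : ℕ) : ℝ) := by
        rw [hnL]
        push_cast
        rw [← Real.rpow_natCast]
        exact Real.rpow_le_rpow_of_exponent_le (by norm_num) h6
      exact_mod_cast h7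
    · have h6 : (64 : ℝ) * n * (2 * (n : ℝ) ^ (1 - η)) = 2 ^ (7 + L + L * (1 - η)) := by
        rw [Real.rpow_add (by norm_num), Real.rpow_add (by norm_num), Real.rpow_mul (by norm_num),
          ← hnL]
        norm_num
        ring
      have h7 : (((2 : ℝ) ^ (e - 1)) ^ 2) = 2 ^ (2 * ((e : ℝ) - 1)) := by
        rw [← pow_mul, ← Real.rpow_natCast]
        congr 1
        push_cast [Nat.cast_sub (by omega : 1 ≤ e)]
        ring
      rw [h6, h7]
      refine Real.rpow_le_rpow_of_exponent_le (by norm_num) ?_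
      nlinarith

/-- the optimum has logarithmic cost per request -/
theorem opt_log {X : ZMod n → ZMod n} {η : ℝ} (h0 : 0 < η) (h1 : η ≤ 1)
    (hX : Pair X (2 * (n : ℝ) ^ (1 - η))) {N : ℕ} (hN : n ≤ N) {T : Tr}
    (hT : keys T = List.range n) :
    (N : ℝ) * Real.logb 2 n * η ≤ 16398 * optAny (List.range n) (reqs X N) := by
  have hn : 0 < n := Nat.pos_of_ne_zero (NeZero.ne n)
  have hL0 : 0 ≤ Real.logb 2 n := Real.logb_nonneg (by norm_num) (by exact_mod_cast hn)
  have h3 := opt_len' X (N := N) hT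
  set O : ℝ := ((optAny (List.range n) (reqs X N) : ℕ) : ℝ) with hO
  set L := Real.logb 2 n with hLd
  have hN0 : (0 : ℝ) ≤ N := by positivity
  rcases le_total 11 L with hL | hL
  · obtain ⟨S, hS1, hS2⟩ := many_scales (n := n) h0 h1 hL
    have h5 := opt_ge' hX (by positivity) hN S hS2 hT
    have h6 : (N : ℝ) * (η / 2 * L - 7) ≤ N * S.card := mul_le_mul_of_nonneg_left hS1 hN0
    have h7 : (N : ℝ) * (η / 2 * L - 7) ≤ 8192 * O := h6.trans h5
    have h8 : (N : ℝ) * L * η = 2 * (N * (η / 2 * L - 7)) + 14 * N := by ring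
    rw [h8]
    linarith
  · have h5 : (N : ℝ) * L * η ≤ N * 11 * 1 := by
      apply mul_le_mul (mul_le_mul_of_nonneg_left hL hN0) h1 h0.le (by positivity)
    linarith

/-- **The criterion.** -/
theorem crit {X : ZMod n → ZMod n} {η : ℝ} (h0 : 0 < η) (h1 : η ≤ 1)
    (hX : Pair X (2 * (n : ℝ) ^ (1 - η))) {N : ℕ} (hN : n ≤ N) {T : Tr}
    (hT : keys T = List.range n) :
    (costSplay T (reqs X N) : ℝ) ≤ 229600 / η * optAny (List.range n) (reqs X N) := by
  have hn : 0 < n := Nat.pos_of_ne_zero (NeZero.ne n)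
  have hnr : (0 : ℝ) < n := by exact_mod_cast hn
  have hL0 : 0 ≤ Real.logb 2 n := Real.logb_nonneg (by norm_num) (by exact_mod_cast hn)
  have h2 := cost_le' X hN hT
  have h3 := opt_len' X (N := N) hT
  have h4 := opt_log h0 h1 hX hN hT
  set O : ℝ := ((optAny (List.range n) (reqs X N) : ℕ) : ℝ) with hO
  set L := Real.logb 2 n with hLd
  have hN0 : (0 : ℝ) ≤ N := by positivity
  have h5 : (N : ℝ) * L ≤ 16398 * O / η := by
    rw [le_div_iff₀ h0]; exact h4
  have h6 : O ≤ O / η := by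
    rw [le_div_iff₀ h0]
    have : 0 ≤ O := by rw [hO]; positivity
    nlinarith
  have h7 : (229600 : ℝ) / η * O = 229600 * (O / η) := by ring
  have h8 : (16398 : ℝ) * O / η = 16398 * (O / η) := by ring
  rw [h7]
  rw [h8] at h5
  have h9 : 0 ≤ O / η := by
    have : 0 ≤ O := by rw [hO]; positivity
    positivity
  linarith

end Pool.Agent.Run7.h150.Pol
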