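import Mathlib

set_option autoImplicit false

/-!
# Pair correlations from exponential sums modulo `n`
-/

namespace Pool.Agent.Run7.h150.Pol

open Finset ZMod ComplexConjugate

variable {n : ℕ} [NeZero n]

/-- the standard character -/
noncomputable abbrev ψ {n : ℕ} [NeZero n] : AddChar (ZMod n) ℂ := ZMod.stdAddChar

lemma psi_norm (x : ZMod n) : ‖ψ x‖ = 1 := AddChar.norm_apply _ _

lemma orth (x : ZMod n) : ∑ a : ZMod n, ψ (a * x) = if x = 0 then (n : ℂ) else 0 := by
  have h := AddChar.sum_mulShift x (ZMod.isPrimitive_stdAddChar n)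
  rw [ZMod.card] at h
  rw [h]
  split_ifs <;> simp

/-- the Fourier transform of a set -/
noncomputable def FF (I : Finset (ZMod n)) (a : ZMod n) : ℂ := ∑ y ∈ I, ψ (-(a * y))

/-- the number of representations of `x` as a sum of elements of `I` and `J` -/
noncomputable def ph (I J : Finset (ZMod n)) (x : ZMod n) : ℝ :=
  ∑ y ∈ I, ∑ z ∈ J, if x - y - z = 0 then (1 : ℝ) else 0

lemma ph_nonneg (I J : Finset (ZMod n)) (x : ZMod n) : 0 ≤ ph I J x := by
  unfold ph
  refine Finset.sum_nonneg fun y _ => Finset.sum_nonneg fun z _ => ?_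
  split_ifs <;> norm_num

lemma ph_le (I J : Finset (ZMod n)) (x : ZMod n) : ph I J x ≤ I.card := by
  unfold ph
  have h : ∀ y ∈ I, (∑ z ∈ J, if x - y - z = 0 then (1 : ℝ) else 0) ≤ 1 := by
    intro y _
    rw [Finset.sum_ite, Finset.sum_const_zero, add_zero, Finset.sum_const, nsmul_eq_mul, mul_one]
    have : (J.filter fun z => x - y - z = 0).card ≤ 1 := by
      rw [Finset.card_le_one]
      intro a ha b hb
      have h1 := (Finset.mem_filter.1 ha).2
      have h2 := (Finset.mem_filter.1 hb).2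
      have : x - y - a = x - y - b := by rw [h1, h2]
      simpa using this
    exact_mod_cast this
  calc _ ≤ ∑ y ∈ I, (1 : ℝ) := Finset.sum_le_sum h
    _ = I.card := by simp

lemma ph_eq (I J : Finset (ZMod n)) (x : ZMod n) :
    (n : ℂ) * ((ph I J x : ℝ) : ℂ) = ∑ a : ZMod n, FF I a * FF J a * ψ (a * x) := by
  have h1 : ∀ a : ZMod n, FF I a * FF J a * ψ (a * x) =
      ∑ y ∈ I, ∑ z ∈ J, ψ (a * (x - y - z)) := by
    intro a
    unfold FF
    rw [Finset.sum_mul_sum, Finset.sum_mul]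
    refine Finset.sum_congr rfl fun y _ => ?_
    rw [Finset.sum_mul]
    refine Finset.sum_congr rfl fun z _ => ?_
    rw [← AddChar.map_add_eq_mul, ← AddChar.map_add_eq_mul]
    congr 1
    ring
  rw [Finset.sum_congr rfl fun a _ => h1 a, Finset.sum_comm]
  unfold ph
  push_cast
  rw [Finset.mul_sum]
  refine Finset.sum_congr rfl fun y _ => ?_
  rw [Finset.sum_comm, Finset.mul_sum]
  refine Finset.sum_congr rfl fun z _ => ?_
  rw [orth]
  split_ifs <;> simp

lemma FF_zero (I : Finset (ZMod n)) : FF I 0 = I.card := by simp [FF]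

/-- Parseval -/
lemma parseval (I : Finset (ZMod n)) : ∑ a : ZMod n, ‖FF I a‖ ^ 2 = n * I.card := by
  have h1 : ((∑ a : ZMod n, ‖FF I a‖ ^ 2 : ℝ) : ℂ) = ((n * I.card : ℝ) : ℂ) := by
    push_cast
    have h2 : ∀ a : ZMod n, ((‖FF I a‖ : ℝ) : ℂ) ^ 2 = ∑ y ∈ I, ∑ z ∈ I, ψ (a * (z - y)) := by
      intro a
      rw [← Complex.mul_conj', FF, map_sum, Finset.sum_mul_sum]
      refine Finset.sum_congr rfl fun y _ => Finset.sum_congr rfl fun z _ => ?_
      rw [← AddChar.map_neg_eq_conj, ← AddChar.map_add_eq_mul]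
      congr 1
      ring
    rw [Finset.sum_congr rfl fun a _ => h2 a, Finset.sum_comm]
    have h3 : ∀ y ∈ I, ∑ a : ZMod n, ∑ z ∈ I, ψ (a * (z - y)) = n := by
      intro y hy
      rw [Finset.sum_comm]
      rw [Finset.sum_congr rfl fun z _ => orth (z - y)]
      rw [Finset.sum_eq_single y]
      · simp
      · intro z _ hz
        rw [if_neg (sub_ne_zero.2 hz)]
      · intro h; exact absurd hy h
    rw [Finset.sum_congr rfl h3, Finset.sum_const, nsmul_eq_mul]
    ring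
  exact_mod_cast h1

/-- the sum of the coefficients -/
lemma coef_sum (I J : Finset (ZMod n)) (hIJ : J.card = I.card) :
    ∑ a : ZMod n, ‖FF I a * FF J a‖ ≤ n * I.card := by
  have h1 : ∀ a : ZMod n, ‖FF I a * FF J a‖ ≤ (‖FF I a‖ ^ 2 + ‖FF J a‖ ^ 2) / 2 := by
    intro a
    rw [norm_mul]
    nlinarith [sq_nonneg (‖FF I a‖ - ‖FF J a‖)]
  refine (Finset.sum_le_sum fun a _ => h1 a).trans ?_
  rw [← Finset.sum_div, Finset.sum_add_distrib, parseval, parseval, hIJ]
  linarith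

/-- single sums -/
lemma single_bound (I J : Finset (ZMod n)) (hIJ : J.card = I.card) (X : ZMod n → ZMod n) {B : ℝ}
    (hB : ∀ a : ZMod n, a ≠ 0 → ‖∑ i : ZMod n, ψ (a * X i)‖ ≤ B) (hB0 : 0 ≤ B) :
    |∑ i : ZMod n, ph I J (X i) - (I.card : ℝ) ^ 2| ≤ I.card * B := by
  classical
  have hn : (0 : ℝ) < n := by exact_mod_cast Nat.pos_of_ne_zero (NeZero.ne n)
  have h1 : (n : ℂ) * ((∑ i : ZMod n, ph I J (X i) - (I.card : ℝ) ^ 2 : ℝ) : ℂ) =
      ∑ a ∈ (Finset.univ : Finset (ZMod n)).erase 0,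
        FF I a * FF J a * ∑ i : ZMod n, ψ (a * X i) := by
    push_cast
    rw [mul_sub, Finset.mul_sum, Finset.sum_congr rfl fun i _ => ph_eq I J (X i),
      Finset.sum_comm]
    rw [← Finset.add_sum_erase _ _ (Finset.mem_univ (0 : ZMod n))]
    simp only [FF_zero, zero_mul, AddChar.map_zero_eq_one, mul_one, Finset.sum_const,
      Finset.card_univ, ZMod.card, nsmul_eq_mul, hIJ, Finset.mul_sum]
    ring
  have h2 : (n : ℝ) * |∑ i : ZMod n, ph I J (X i) - (I.card : ℝ) ^ 2| ≤ n * (I.card * B) := by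
    calc (n : ℝ) * |∑ i : ZMod n, ph I J (X i) - (I.card : ℝ) ^ 2|
        = ‖(n : ℂ) * ((∑ i : ZMod n, ph I J (X i) - (I.card : ℝ) ^ 2 : ℝ) : ℂ)‖ := by
          rw [norm_mul, Complex.norm_natCast, Complex.norm_real, Real.norm_eq_abs]
      _ = ‖∑ a ∈ (Finset.univ : Finset (ZMod n)).erase 0,
          FF I a * FF J a * ∑ i : ZMod n, ψ (a * X i)‖ := by rw [h1]
      _ ≤ ∑ a ∈ (Finset.univ : Finset (ZMod n)).erase 0, ‖FF I a * FF J a‖ * B := by
          refine (norm_sum_le _ _).trans (Finset.sum_le_sum fun a ha => ?_)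
          rw [norm_mul]
          exact mul_le_mul_of_nonneg_left (hB a (Finset.ne_of_mem_erase ha)) (norm_nonneg _)
      _ ≤ ∑ a : ZMod n, ‖FF I a * FF J a‖ * B := by
          refine Finset.sum_le_sum_of_subset_of_nonneg (Finset.erase_subset _ _) fun a _ _ => ?_
          positivity
      _ = (∑ a : ZMod n, ‖FF I a * FF J a‖) * B := by rw [Finset.sum_mul]
      _ ≤ (n * I.card) * B := mul_le_mul_of_nonneg_right (coef_sum I J hIJ) hB0
      _ = n * (I.card * B) := by ring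
  exact le_of_mul_le_mul_left h2 hn

/-- pair sums -/
lemma pair_bound (I J : Finset (ZMod n)) (hIJ : J.card = I.card) (X : ZMod n → ZMod n)
    (h : ZMod n) {B : ℝ} (hB : ∀ a b : ZMod n, (a ≠ 0 ∨ b ≠ 0) →
      ‖∑ i : ZMod n, ψ (a * X i + b * X (i + h))‖ ≤ B) (hB0 : 0 ≤ B) :
    ∑ i : ZMod n, ph I J (X i) * ph I J (X (i + h)) ≤
      (I.card : ℝ) ^ 4 / n + (I.card : ℝ) ^ 2 * B := by
  classical
  have hn : (0 : ℝ) < n := by exact_mod_cast Nat.pos_of_ne_zero (NeZero.ne n)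
  have h1 : (n : ℂ) ^ 2 * ((∑ i : ZMod n, ph I J (X i) * ph I J (X (i + h)) : ℝ) : ℂ) =
      ∑ z : ZMod n × ZMod n, (FF I z.1 * FF J z.1) * (FF I z.2 * FF J z.2) *
        ∑ i : ZMod n, ψ (z.1 * X i + z.2 * X (i + h)) := by
    push_cast
    have e1 : ∀ i : ZMod n, (n : ℂ) ^ 2 *
        (((ph I J (X i) : ℝ) : ℂ) * ((ph I J (X (i + h)) : ℝ) : ℂ)) =
        ∑ z : ZMod n × ZMod n, (FF I z.1 * FF J z.1) * (FF I z.2 * FF J z.2) *
          ψ (z.1 * X i + z.2 * X (i + h)) := by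
      intro i
      have e2 : (n : ℂ) ^ 2 *
        (((ph I J (X i) : ℝ) : ℂ) * ((ph I J (X (i + h)) : ℝ) : ℂ)) =
        ((n : ℂ) * ((ph I J (X i) : ℝ) : ℂ)) * ((n : ℂ) * ((ph I J (X (i + h)) : ℝ) : ℂ)) := by
        ring
      rw [e2, ph_eq, ph_eq, Finset.sum_mul_sum, ← Finset.univ_product_univ, Finset.sum_product]
      refine Finset.sum_congr rfl fun a _ => Finset.sum_congr rfl fun b _ => ?_
      rw [AddChar.map_add_eq_mul]
      ring
    rw [Finset.mul_sum, Finset.sum_congr rfl fun i _ => e1 i, Finset.sum_comm]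
    refine Finset.sum_congr rfl fun z _ => ?_
    rw [Finset.mul_sum]
  have h2 : (n : ℂ) ^ 2 * ((∑ i : ZMod n, ph I J (X i) * ph I J (X (i + h)) -
      (I.card : ℝ) ^ 4 / n : ℝ) : ℂ) =
      ∑ z ∈ (Finset.univ : Finset (ZMod n × ZMod n)).erase 0,
        (FF I z.1 * FF J z.1) * (FF I z.2 * FF J z.2) *
        ∑ i : ZMod n, ψ (z.1 * X i + z.2 * X (i + h)) := by
    rw [Complex.ofReal_sub, mul_sub, h1,
      ← Finset.add_sum_erase _ _ (Finset.mem_univ (0 : ZMod n × ZMod n))]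
    have hn' : (n : ℂ) ≠ 0 := by exact_mod_cast NeZero.ne n
    simp only [Prod.fst_zero, Prod.snd_zero, FF_zero, zero_mul, add_zero,
      AddChar.map_zero_eq_one, Finset.sum_const, Finset.card_univ, ZMod.card, nsmul_eq_mul,
      mul_one, hIJ]
    push_cast
    field_simp
    ring
  have h3 : (n : ℝ) ^ 2 * (∑ i : ZMod n, ph I J (X i) * ph I J (X (i + h)) -
      (I.card : ℝ) ^ 4 / n) ≤ (n : ℝ) ^ 2 * ((I.card : ℝ) ^ 2 * B) := by
    calc (n : ℝ) ^ 2 * (∑ i : ZMod n, ph I J (X i) * ph I J (X (i + h)) -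
          (I.card : ℝ) ^ 4 / n)
        ≤ ‖(n : ℂ) ^ 2 * ((∑ i : ZMod n, ph I J (X i) * ph I J (X (i + h)) -
            (I.card : ℝ) ^ 4 / n : ℝ) : ℂ)‖ := by
          rw [norm_mul, norm_pow, Complex.norm_natCast, Complex.norm_real]
          exact mul_le_mul_of_nonneg_left (le_abs_self _) (by positivity)
      _ = ‖∑ z ∈ (Finset.univ : Finset (ZMod n × ZMod n)).erase 0,
          (FF I z.1 * FF J z.1) * (FF I z.2 * FF J z.2) *
          ∑ i : ZMod n, ψ (z.1 * X i + z.2 * X (i + h))‖ := by rw [h2]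
      _ ≤ ∑ z ∈ (Finset.univ : Finset (ZMod n × ZMod n)).erase 0,
          ‖FF I z.1 * FF J z.1‖ * ‖FF I z.2 * FF J z.2‖ * B := by
          refine (norm_sum_le _ _).trans (Finset.sum_le_sum fun z hz => ?_)
          rw [norm_mul, norm_mul (FF I z.1 * FF J z.1)]
          refine mul_le_mul_of_nonneg_left (hB z.1 z.2 ?_) (by positivity)
          have := Finset.ne_of_mem_erase hz
          by_contra hcon
          push Not at hcon
          exact this (Prod.ext hcon.1 hcon.2)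
      _ ≤ ∑ z : ZMod n × ZMod n, ‖FF I z.1 * FF J z.1‖ * ‖FF I z.2 * FF J z.2‖ * B := by
          refine Finset.sum_le_sum_of_subset_of_nonneg (Finset.erase_subset _ _) fun z _ _ => ?_
          positivity
      _ = (∑ a : ZMod n, ‖FF I a * FF J a‖) * (∑ a : ZMod n, ‖FF I a * FF J a‖) * B := by
          rw [← Finset.sum_mul, ← Finset.univ_product_univ, Finset.sum_product,
            Finset.sum_mul_sum]
      _ ≤ (n * I.card) * (n * I.card) * B := by
          refine mul_le_mul_of_nonneg_right ?_ hB0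
          have h5 := coef_sum I J hIJ
          have h6 : 0 ≤ ∑ a : ZMod n, ‖FF I a * FF J a‖ :=
            Finset.sum_nonneg fun a _ => norm_nonneg _
          exact mul_le_mul h5 h5 h6 (by positivity)
      _ = (n : ℝ) ^ 2 * ((I.card : ℝ) ^ 2 * B) := by ring
  have h4 := le_of_mul_le_mul_left h3 (by positivity : (0 : ℝ) < (n : ℝ) ^ 2)
  linarith

end Pool.Agent.Run7.h150.Pol
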