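import Pool.Agent.Run7.h150.Pol.Fourier

set_option autoImplicit false

/-!
# Second moments over short windows
-/

namespace Pool.Agent.Run7.h150.Pol

open Finset ZMod ComplexConjugate

variable {n : ℕ} [NeZero n]

/-- The bound for the pair sums. -/
def Pair (X : ZMod n → ZMod n) (B : ℝ) : Prop :=
  ∀ h : ZMod n, h ≠ 0 → ∀ a b : ZMod n, (a ≠ 0 ∨ b ≠ 0) →
    ‖∑ i : ZMod n, ψ (a * X i + b * X (i + h))‖ ≤ B

/-- the sum over a window -/
noncomputable def SW (I J : Finset (ZMod n)) (X : ZMod n → ZMod n) (W : ℕ) (j : ZMod n) : ℝ :=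
  ∑ u ∈ Finset.range W, ph I J (X (j + (u : ZMod n)))

lemma sum_shift (F : ZMod n → ℝ) (c : ZMod n) : ∑ j : ZMod n, F (j + c) = ∑ j : ZMod n, F j :=
  Equiv.sum_comp (Equiv.addRight c) F

lemma sum_SW (I J : Finset (ZMod n)) (X : ZMod n → ZMod n) (W : ℕ) :
    ∑ j : ZMod n, SW I J X W j = W * ∑ j : ZMod n, ph I J (X j) := by
  unfold SW
  rw [Finset.sum_comm]
  have h : ∀ u ∈ Finset.range W, ∑ j : ZMod n, ph I J (X (j + (u : ZMod n))) =
      ∑ j : ZMod n, ph I J (X j) := fun u _ => sum_shift (fun j => ph I J (X j)) (u : ZMod n)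
  rw [Finset.sum_congr rfl h]
  simp

lemma cast_ne {W u v : ℕ} (hW : W ≤ n) (hu : u < W) (hv : v < W) (huv : u ≠ v) :
    ((v : ZMod n) - (u : ZMod n)) ≠ 0 := by
  intro h
  have h1 : ((v : ℕ) : ZMod n) = ((u : ℕ) : ZMod n) := sub_eq_zero.1 h
  rw [ZMod.natCast_eq_natCast_iff'] at h1
  rw [Nat.mod_eq_of_lt (by omega), Nat.mod_eq_of_lt (by omega)] at h1
  exact huv h1.symm

lemma sum_SW_sq (I J : Finset (ZMod n)) (hIJ : J.card = I.card) {X : ZMod n → ZMod n} {B : ℝ}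
    (hX : Pair X B) (hB0 : 0 ≤ B) {W : ℕ} (hW : W ≤ n) :
    ∑ j : ZMod n, SW I J X W j ^ 2 ≤ W * I.card * ∑ j : ZMod n, ph I J (X j) +
      (W : ℝ) ^ 2 * ((I.card : ℝ) ^ 4 / n + (I.card : ℝ) ^ 2 * B) := by
  have h1 : ∑ j : ZMod n, SW I J X W j ^ 2 = ∑ u ∈ Finset.range W, ∑ v ∈ Finset.range W,
      ∑ j : ZMod n, ph I J (X j) * ph I J (X (j + ((v : ZMod n) - u))) := by
    have e1 : ∀ j : ZMod n, SW I J X W j ^ 2 = ∑ u ∈ Finset.range W, ∑ v ∈ Finset.range W,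
        ph I J (X (j + (u : ZMod n))) * ph I J (X (j + (v : ZMod n))) := by
      intro j
      rw [sq, SW, Finset.sum_mul_sum]
    rw [Finset.sum_congr rfl fun j _ => e1 j, Finset.sum_comm]
    refine Finset.sum_congr rfl fun u _ => ?_
    rw [Finset.sum_comm]
    refine Finset.sum_congr rfl fun v _ => ?_
    rw [← sum_shift (fun j => ph I J (X j) * ph I J (X (j + ((v : ZMod n) - u)))) (u : ZMod n)]
    refine Finset.sum_congr rfl fun j _ => ?_
    congr 3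
    ring
  rw [h1]
  have hphi : 0 ≤ ∑ j : ZMod n, ph I J (X j) := Finset.sum_nonneg fun j _ => ph_nonneg _ _ _
  have h2 : ∀ u ∈ Finset.range W, ∑ v ∈ Finset.range W,
      ∑ j : ZMod n, ph I J (X j) * ph I J (X (j + ((v : ZMod n) - u))) ≤
      I.card * ∑ j : ZMod n, ph I J (X j) +
        (W : ℝ) * ((I.card : ℝ) ^ 4 / n + (I.card : ℝ) ^ 2 * B) := by
    intro u hu
    rw [← Finset.add_sum_erase _ _ hu]
    refine add_le_add ?_ ?_
    · rw [Finset.mul_sum]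
      refine Finset.sum_le_sum fun j _ => ?_
      have e : j + ((u : ZMod n) - u) = j := by ring
      rw [e]
      exact mul_le_mul_of_nonneg_right (ph_le _ _ _) (ph_nonneg _ _ _)
    · have h3 : ∀ v ∈ (Finset.range W).erase u,
          ∑ j : ZMod n, ph I J (X j) * ph I J (X (j + ((v : ZMod n) - u))) ≤
          (I.card : ℝ) ^ 4 / n + (I.card : ℝ) ^ 2 * B := by
        intro v hv
        rw [Finset.mem_erase, Finset.mem_range] at hv
        rw [Finset.mem_range] at hu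
        exact pair_bound I J hIJ X _ (hX _ (cast_ne hW hu hv.2 (fun h => hv.1 h.symm))) hB0
      refine (Finset.sum_le_card_nsmul _ _ _ h3).trans ?_
      rw [nsmul_eq_mul]
      refine mul_le_mul_of_nonneg_right ?_ (by positivity)
      have : ((Finset.range W).erase u).card ≤ W := by
        calc _ ≤ (Finset.range W).card := Finset.card_le_card (Finset.erase_subset _ _)
          _ = W := Finset.card_range W
      exact_mod_cast this
  refine (Finset.sum_le_sum h2).trans ?_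
  rw [Finset.sum_const, Finset.card_range, nsmul_eq_mul]
  apply le_of_eq
  ring

/-- few windows contain no visit -/
lemma few_empty (I J : Finset (ZMod n)) (hIJ : J.card = I.card) {X : ZMod n → ZMod n} {B : ℝ}
    (hX : Pair X B) (hB0 : 0 ≤ B) {W : ℕ} (hW : W ≤ n) (hn2 : 2 ≤ n) (hI : 1 ≤ I.card)
    (hIn : I.card ≤ n) (h1 : 64 * n * B ≤ (I.card : ℝ) ^ 2) (h2 : 32 * n ≤ W * I.card)
    (Z : Finset (ZMod n)) (hZ : ∀ j ∈ Z, SW I J X W j = 0) : 8 * Z.card ≤ n := by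
  have hn : (0 : ℝ) < n := by exact_mod_cast Nat.pos_of_ne_zero (NeZero.ne n)
  set κ : ℝ := (I.card : ℝ) with hκ
  have hκ1 : 1 ≤ κ := by rw [hκ]; exact_mod_cast hI
  have hκn : κ ≤ n := by rw [hκ]; exact_mod_cast hIn
  have hWκ : 32 * (n : ℝ) ≤ W * κ := by rw [hκ]; exact_mod_cast h2
  have hW0 : (0 : ℝ) < W := by
    by_contra hcon
    have : (W : ℝ) = 0 := le_antisymm (not_lt.1 hcon) (by positivity)
    rw [this] at hWκ
    linarith
  set Φ : ℝ := ∑ j : ZMod n, ph I J (X j) with hΦ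
  obtain ⟨h0, hh0⟩ : ∃ h : ZMod n, h ≠ 0 := by
    haveI : Fact (1 < n) := ⟨by omega⟩
    exact ⟨1, one_ne_zero⟩
  have hsingle : |Φ - κ ^ 2| ≤ κ * B := by
    refine single_bound I J hIJ X ?_ hB0
    intro a ha
    have := hX h0 hh0 a 0 (Or.inl ha)
    simpa using this
  obtain ⟨hs1, hs2⟩ := abs_le.1 hsingle
  set μ : ℝ := W * κ ^ 2 / n with hμ
  have hμ0 : 0 < μ := by rw [hμ]; positivity
  have hsq := sum_SW_sq I J hIJ hX hB0 hW
  have hV : ∑ j : ZMod n, (SW I J X W j - μ) ^ 2 =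
      ∑ j : ZMod n, SW I J X W j ^ 2 - 2 * μ * (W * Φ) + n * μ ^ 2 := by
    have e1 : ∀ j : ZMod n, (SW I J X W j - μ) ^ 2 =
        SW I J X W j ^ 2 - 2 * μ * SW I J X W j + μ ^ 2 := fun j => by ring
    rw [Finset.sum_congr rfl fun j _ => e1 j, Finset.sum_add_distrib, Finset.sum_sub_distrib,
      ← Finset.mul_sum, sum_SW, Finset.sum_const, Finset.card_univ, ZMod.card, nsmul_eq_mul]
  have hZV : (Z.card : ℝ) * μ ^ 2 ≤ ∑ j : ZMod n, (SW I J X W j - μ) ^ 2 := by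
    calc (Z.card : ℝ) * μ ^ 2 = ∑ j ∈ Z, (SW I J X W j - μ) ^ 2 := by
          rw [Finset.sum_congr rfl fun j hj => by rw [hZ j hj]]
          rw [Finset.sum_const, nsmul_eq_mul]
          ring
      _ ≤ _ := Finset.sum_le_sum_of_subset_of_nonneg (Finset.subset_univ _)
          fun _ _ _ => sq_nonneg _
  -- the bound for the variance
  have hVle : ∑ j : ZMod n, (SW I J X W j - μ) ^ 2 ≤
      W * κ * (κ ^ 2 + κ * B) + (W : ℝ) ^ 2 * κ ^ 2 * B + 2 * (W : ℝ) ^ 2 * κ ^ 3 * B / n := by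
    rw [hV]
    have e1 : W * κ * Φ ≤ W * κ * (κ ^ 2 + κ * B) :=
      mul_le_mul_of_nonneg_left (by linarith) (by positivity)
    have e2 : 2 * μ * (W * Φ) ≥ 2 * μ * (W * (κ ^ 2 - κ * B)) :=
      mul_le_mul_of_nonneg_left (mul_le_mul_of_nonneg_left (by linarith) hW0.le) (by positivity)
    have e3 : 2 * μ * (W * (κ ^ 2 - κ * B)) =
        2 * ((W : ℝ) ^ 2 * κ ^ 4 / n) - 2 * (W : ℝ) ^ 2 * κ ^ 3 * B / n := by
      rw [hμ]; field_simp
    have e4 : n * μ ^ 2 = (W : ℝ) ^ 2 * κ ^ 4 / n := by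
      rw [hμ]; field_simp
    have e5 : (W : ℝ) ^ 2 * (κ ^ 4 / n + κ ^ 2 * B) =
        (W : ℝ) ^ 2 * κ ^ 4 / n + (W : ℝ) ^ 2 * κ ^ 2 * B := by ring
    rw [e5] at hsq
    linarith
  have hfin : W * κ * (κ ^ 2 + κ * B) + (W : ℝ) ^ 2 * κ ^ 2 * B +
      2 * (W : ℝ) ^ 2 * κ ^ 3 * B / n ≤ (n / 8) * μ ^ 2 := by
    have e4 : (n / 8) * μ ^ 2 = (W : ℝ) ^ 2 * κ ^ 4 / (8 * n) := by
      rw [hμ]; field_simp
    rw [e4]
    have hB1 : B ≤ κ ^ 2 / (64 * n) := by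
      rw [le_div_iff₀ (by positivity)]; linarith
    have hB2 : B ≤ κ / 64 := by
      refine hB1.trans ?_
      rw [div_le_div_iff₀ (by positivity) (by norm_num)]
      nlinarith
    set Q : ℝ := (W : ℝ) ^ 2 * κ ^ 4 / n with hQ
    have t1 : W * κ ^ 3 ≤ Q / 32 := by
      rw [hQ, div_div, le_div_iff₀ (by positivity)]
      have : W * κ ^ 3 * (n * 32) = (W * κ ^ 3) * (32 * n) := by ring
      rw [this]
      calc (W * κ ^ 3) * (32 * n) ≤ (W * κ ^ 3) * (W * κ) :=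
            mul_le_mul_of_nonneg_left hWκ (by positivity)
        _ = (W : ℝ) ^ 2 * κ ^ 4 := by ring
    have t2 : W * κ ^ 2 * B ≤ Q / 32 := by
      refine le_trans ?_ t1
      calc W * κ ^ 2 * B ≤ W * κ ^ 2 * κ :=
            mul_le_mul_of_nonneg_left (by linarith) (by positivity)
        _ = W * κ ^ 3 := by ring
    have t3 : (W : ℝ) ^ 2 * κ ^ 2 * B ≤ Q / 64 := by
      calc (W : ℝ) ^ 2 * κ ^ 2 * B ≤ (W : ℝ) ^ 2 * κ ^ 2 * (κ ^ 2 / (64 * n)) :=
            mul_le_mul_of_nonneg_left hB1 (by positivity)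
        _ = Q / 64 := by rw [hQ]; field_simp
    have t4 : 2 * (W : ℝ) ^ 2 * κ ^ 3 * B / n ≤ Q / 32 := by
      rw [hQ, div_div, div_le_div_iff₀ hn (by positivity)]
      calc 2 * (W : ℝ) ^ 2 * κ ^ 3 * B * (n * 32) ≤ 2 * (W : ℝ) ^ 2 * κ ^ 3 * (κ / 64) * (n * 32) := by
            refine mul_le_mul_of_nonneg_right ?_ (by positivity)
            exact mul_le_mul_of_nonneg_left hB2 (by positivity)
        _ = (W : ℝ) ^ 2 * κ ^ 4 * n := by ring
    have e6 : (W : ℝ) ^ 2 * κ ^ 4 / (8 * n) = Q / 8 := by rw [hQ]; field_simp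
    have hQ0 : 0 ≤ Q := by rw [hQ]; positivity
    rw [e6]
    have e7 : W * κ * (κ ^ 2 + κ * B) = W * κ ^ 3 + W * κ ^ 2 * B := by ring
    rw [e7]
    linarith
  have h3 : (Z.card : ℝ) * μ ^ 2 ≤ (n / 8) * μ ^ 2 := hZV.trans (hVle.trans hfin)
  have h4 : (Z.card : ℝ) ≤ n / 8 := le_of_mul_le_mul_right h3 (by positivity)
  have h5 : (8 * Z.card : ℝ) ≤ n := by linarith
  exact_mod_cast h5

end Pool.Agent.Run7.h150.Pol
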