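import Pool.Agent.Run7.h150.Pol.Crit

set_option autoImplicit false

/-!
# Polynomial sequences modulo a prime
-/

namespace Pool.Agent.Run7.h150.Pol

open Polynomial ComplexConjugate
open Pool.Agent.H581R2.Splay Pool.Agent.TH49.Spl

section

variable {p : ℕ} [Fact p.Prime]

/-- differencing lowers the degree by one -/
lemma natDegree_diff {g : (ZMod p)[X]} {j : ℕ} (hg : g.natDegree = j + 1) (hj : j + 1 < p)
    {h : ZMod p} (hh : h ≠ 0) : (taylor h g - g).natDegree = j := by
  have hg0 : g ≠ 0 := by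
    rintro rfl
    simp at hg
  have h1 : (taylor h g - g).degree < g.degree :=
    degree_sub_lt_right (degree_taylor g h) hg0 (leadingCoeff_taylor h g)
  have h2 : (taylor h g - g).natDegree ≤ j := by
    rw [degree_eq_natDegree hg0, hg] at h1
    by_cases hq : taylor h g - g = 0
    · rw [hq]; simp
    · have := (natDegree_lt_iff_degree_lt hq).2 h1
      omega
  have h3 : (taylor h g - g).coeff j ≠ 0 := by
    rw [coeff_sub, taylor_coeff]
    have h4 : (hasseDeriv j g).natDegree ≤ 1 := by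
      refine (natDegree_hasseDeriv_le g j).trans ?_
      omega
    rw [eq_X_add_C_of_natDegree_le_one h4]
    simp only [eval_add, eval_mul, eval_C, eval_X, hasseDeriv_coeff]
    have e1 : (1 + j).choose j = j + 1 := by
      rw [Nat.add_comm, Nat.choose_succ_self_right]
    have e2 : (0 + j).choose j = 1 := by simp
    rw [e1, e2, Nat.add_comm 1 j, Nat.zero_add]
    have h5 : g.coeff (j + 1) ≠ 0 := by
      rw [← hg]; exact leadingCoeff_ne_zero.2 hg0
    have h6 : (((j + 1 : ℕ) : ZMod p)) ≠ 0 := by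
      intro hcon
      rw [ZMod.natCast_eq_zero_iff] at hcon
      exact absurd (Nat.le_of_dvd (by omega) hcon) (by omega)
    have h7 : ((j + 1 : ℕ) : ZMod p) * g.coeff (j + 1) * h + ((1 : ℕ) : ZMod p) * g.coeff j -
        g.coeff j = ((j + 1 : ℕ) : ZMod p) * g.coeff (j + 1) * h := by
      push_cast; ring
    rw [h7]
    exact mul_ne_zero (mul_ne_zero h6 h5) hh
  exact natDegree_eq_of_le_of_coeff_ne_zero h2 h3

/-- the estimate of Weyl for complete sums -/
lemma weyl (j : ℕ) (hj : 1 ≤ j) : ∀ g : (ZMod p)[X], g.natDegree = j → j < p →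
    ‖∑ x : ZMod p, ψ (g.eval x)‖ ≤ 2 * (p : ℝ) ^ (1 - 2 / (2 : ℝ) ^ j) := by
  have hp0 : 0 < p := (Fact.out : p.Prime).pos
  have hp1 : (1 : ℝ) ≤ p := by exact_mod_cast hp0
  have hpr : (0 : ℝ) < p := by exact_mod_cast hp0
  induction j, hj using Nat.le_induction with
  | base =>
    intro g hg _
    have h1 : ∑ x : ZMod p, ψ (g.eval x) = 0 := by
      have h2 := eq_X_add_C_of_natDegree_le_one hg.le
      have h3 : g.coeff 1 ≠ 0 := by
        rw [← hg]
        apply leadingCoeff_ne_zero.2
        rintro rfl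
        simp at hg
      have h4 : ∀ x : ZMod p, ψ (g.eval x) = ψ (x * g.coeff 1) * ψ (g.coeff 0) := by
        intro x
        rw [← AddChar.map_add_eq_mul]
        congr 1
        conv_lhs => rw [h2]
        simp only [eval_add, eval_mul, eval_C, eval_X]
        ring
      rw [Finset.sum_congr rfl fun x _ => h4 x, ← Finset.sum_mul, orth, if_neg h3, zero_mul]
    rw [h1, norm_zero]
    positivity
  | succ j hj ih =>
    intro g hg hjp
    set S : ℂ := ∑ x : ZMod p, ψ (g.eval x) with hS
    have h1 : ((‖S‖ : ℝ) : ℂ) ^ 2 = ∑ h : ZMod p, ∑ y : ZMod p, ψ ((taylor h g - g).eval y) := by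
      rw [← Complex.mul_conj', hS, map_sum, Finset.sum_mul_sum]
      rw [Finset.sum_comm]
      have e1 : ∀ y : ZMod p, ∑ x : ZMod p, ψ (g.eval x) * conj (ψ (g.eval y)) =
          ∑ h : ZMod p, ψ ((taylor h g - g).eval y) := by
        intro y
        rw [← Equiv.sum_comp (Equiv.addLeft y)]
        refine Finset.sum_congr rfl fun h _ => ?_
        rw [← AddChar.map_neg_eq_conj, ← AddChar.map_add_eq_mul]
        congr 1
        rw [eval_sub, taylor_eval]
        simp only [Equiv.coe_addLeft]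
        ring
      rw [Finset.sum_congr rfl fun y _ => e1 y, Finset.sum_comm]
    have h2 : ‖S‖ ^ 2 ≤ ∑ h : ZMod p, ‖∑ y : ZMod p, ψ ((taylor h g - g).eval y)‖ := by
      have e1 : ‖S‖ ^ 2 = ‖((‖S‖ : ℝ) : ℂ) ^ 2‖ := by
        rw [norm_pow, Complex.norm_real, norm_norm]
      rw [e1, h1]
      exact norm_sum_le _ _
    have h3 : ∑ h : ZMod p, ‖∑ y : ZMod p, ψ ((taylor h g - g).eval y)‖ ≤
        p + p * (2 * (p : ℝ) ^ (1 - 2 / (2 : ℝ) ^ j)) := by
      classical
      rw [← Finset.add_sum_erase _ _ (Finset.mem_univ (0 : ZMod p))]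
      refine add_le_add ?_ ?_
      · rw [taylor_zero, sub_self]
        simp
      · refine (Finset.sum_le_card_nsmul _ _ (2 * (p : ℝ) ^ (1 - 2 / (2 : ℝ) ^ j)) ?_).trans ?_
        · intro h hh
          exact ih _ (natDegree_diff hg hjp (Finset.ne_of_mem_erase hh)) (by omega)
        · rw [nsmul_eq_mul]
          refine mul_le_mul_of_nonneg_right ?_ (by positivity)
          have : ((Finset.univ : Finset (ZMod p)).erase 0).card ≤ p := by
            calc _ ≤ (Finset.univ : Finset (ZMod p)).card :=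
                  Finset.card_le_card (Finset.erase_subset _ _)
              _ = p := by rw [Finset.card_univ, ZMod.card]
          exact_mod_cast this
    have h4 : (p : ℝ) * (p : ℝ) ^ (1 - 2 / (2 : ℝ) ^ j) = (p : ℝ) ^ (2 - 2 / (2 : ℝ) ^ j) := by
      nth_rewrite 1 [← Real.rpow_one (p : ℝ)]
      rw [← Real.rpow_add hpr]
      congr 1
      ring
    have h2j : (2 : ℝ) ≤ 2 ^ j := by
      calc (2 : ℝ) = 2 ^ 1 := by norm_num
        _ ≤ 2 ^ j := pow_le_pow_right₀ (by norm_num) hj
    have h5 : (p : ℝ) ≤ (p : ℝ) ^ (2 - 2 / (2 : ℝ) ^ j) := by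
      nth_rewrite 1 [← Real.rpow_one (p : ℝ)]
      refine Real.rpow_le_rpow_of_exponent_le hp1 ?_
      have : 2 / (2 : ℝ) ^ j ≤ 1 := by
        rw [div_le_one (by positivity)]; exact h2j
      linarith
    have h6 : (2 * (p : ℝ) ^ (1 - 2 / (2 : ℝ) ^ (j + 1))) ^ 2 =
        4 * (p : ℝ) ^ (2 - 2 / (2 : ℝ) ^ j) := by
      rw [mul_pow, ← Real.rpow_natCast ((p : ℝ) ^ _), ← Real.rpow_mul hpr.le]
      have e1 : (1 - 2 / (2 : ℝ) ^ (j + 1)) * ((2 : ℕ) : ℝ) = 2 - 2 / (2 : ℝ) ^ j := by
        rw [pow_succ]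
        field_simp
        push_cast
        ring
      rw [e1]
      norm_num
    have h7 : ‖S‖ ^ 2 ≤ (2 * (p : ℝ) ^ (1 - 2 / (2 : ℝ) ^ (j + 1))) ^ 2 := by
      rw [h6]
      have h8 := h2.trans h3
      have h9 : (p : ℝ) * (2 * (p : ℝ) ^ (1 - 2 / (2 : ℝ) ^ j)) =
          2 * (p : ℝ) ^ (2 - 2 / (2 : ℝ) ^ j) := by rw [← h4]; ring
      rw [h9] at h8
      have h10 : (0 : ℝ) ≤ (p : ℝ) ^ (2 - 2 / (2 : ℝ) ^ j) := by positivity
      linarith
    exact le_of_sq_le_sq h7 (by positivity)

/-- the pair sums of a polynomial sequence -/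
lemma pair_poly {f : (ZMod p)[X]} {d : ℕ} (hd : 2 ≤ d) (hf : f.natDegree = d) (hdp : d < p) :
    Pair (fun x : ZMod p => f.eval x) (2 * (p : ℝ) ^ (1 - 2 / (2 : ℝ) ^ d)) := by
  intro h hh a b hab
  have hp0 : 0 < p := (Fact.out : p.Prime).pos
  have hp1 : (1 : ℝ) ≤ p := by exact_mod_cast hp0
  have hf0 : f ≠ 0 := by
    rintro rfl
    simp at hf
    omega
  have h1 : ∀ i : ZMod p, a * f.eval i + b * f.eval (i + h) =
      (C a * f + C b * taylor h f).eval i := by
    intro i
    simp only [eval_add, eval_mul, eval_C, taylor_eval]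
  simp only [h1]
  by_cases h2 : a + b = 0
  · have hb : b ≠ 0 := by
      rintro rfl
      rw [add_zero] at h2
      rcases hab with h | h
      · exact h h2
      · exact h rfl
    have e1 : C a * f + C b * taylor h f = C b * (taylor h f - f) := by
      have : a = -b := by linear_combination h2
      rw [this, C_neg]; ring
    obtain ⟨j, rfl⟩ : ∃ j, d = j + 1 := ⟨d - 1, by omega⟩
    have h3 : (C a * f + C b * taylor h f).natDegree = j := by
      rw [e1, natDegree_C_mul hb]
      exact natDegree_diff hf hdp hh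
    refine (weyl j (by omega) _ h3 (by omega)).trans ?_
    refine mul_le_mul_of_nonneg_left ?_ (by norm_num)
    refine Real.rpow_le_rpow_of_exponent_le hp1 ?_
    have : 2 / (2 : ℝ) ^ (j + 1) ≤ 2 / (2 : ℝ) ^ j :=
      div_le_div_of_nonneg_left (by norm_num) (by positivity)
        (pow_le_pow_right₀ (by norm_num) (by omega))
    linarith
  · have h3 : (C a * f + C b * taylor h f).natDegree = d := by
      apply natDegree_eq_of_le_of_coeff_ne_zero
      · refine (natDegree_add_le _ _).trans ?_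
        rw [max_le_iff]
        exact ⟨(natDegree_C_mul_le _ _).trans hf.le,
          (natDegree_C_mul_le _ _).trans ((natDegree_taylor f h).le.trans hf.le)⟩
      · rw [coeff_add, coeff_C_mul, coeff_C_mul]
        have e1 : (taylor h f).coeff d = f.leadingCoeff := by
          rw [← hf]; exact coeff_taylor_natDegree h f
        have e2 : f.coeff d = f.leadingCoeff := by rw [← hf]; rfl
        rw [e1, e2, ← add_mul]
        exact mul_ne_zero h2 (leadingCoeff_ne_zero.2 hf0)
    exact weyl d (by omega) _ h3 hdp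

/-- **Polynomial sequences.** -/
theorem poly_main {f : (ZMod p)[X]} (hd : 2 ≤ f.natDegree) (hdp : f.natDegree < p)
    {N : ℕ} (hN : p ≤ N) {T : Tr} (hT : keys T = List.range p) :
    (costSplay T (reqs (fun x : ZMod p => f.eval x) N) : ℝ) ≤
      114800 * 2 ^ f.natDegree *
        optAny (List.range p) (reqs (fun x : ZMod p => f.eval x) N) := by
  have h2d : (2 : ℝ) ≤ 2 ^ f.natDegree := by
    calc (2 : ℝ) = 2 ^ 1 := by norm_num
      _ ≤ 2 ^ f.natDegree := pow_le_pow_right₀ (by norm_num) (by omega)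
  have h1 := crit (n := p) (η := 2 / (2 : ℝ) ^ f.natDegree) (by positivity)
    (by rw [div_le_one (by positivity)]; exact h2d) (pair_poly hd rfl hdp) hN hT
  have h2 : (229600 : ℝ) / (2 / (2 : ℝ) ^ f.natDegree) = 114800 * 2 ^ f.natDegree := by
    field_simp
    norm_num
  rw [h2] at h1
  exact h1

/-- the optimum for polynomial sequences -/
theorem poly_opt {f : (ZMod p)[X]} (hd : 2 ≤ f.natDegree) (hdp : f.natDegree < p)
    {N : ℕ} (hN : p ≤ N) {T : Tr} (hT : keys T = List.range p) :
    (N : ℝ) * Real.logb 2 p ≤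
      8199 * 2 ^ f.natDegree *
        optAny (List.range p) (reqs (fun x : ZMod p => f.eval x) N) := by
  have h2d : (2 : ℝ) ≤ 2 ^ f.natDegree := by
    calc (2 : ℝ) = 2 ^ 1 := by norm_num
      _ ≤ 2 ^ f.natDegree := pow_le_pow_right₀ (by norm_num) (by omega)
  have h1 := opt_log (n := p) (η := 2 / (2 : ℝ) ^ f.natDegree) (by positivity)
    (by rw [div_le_one (by positivity)]; exact h2d) (pair_poly hd rfl hdp) hN hT
  rw [← mul_div_assoc, div_le_iff₀ (by positivity)] at h1
  linarith

end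

end Pool.Agent.Run7.h150.Pol
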