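import Pool.Agent.Run7.h150.Pol.Moment
import Pool.Agent.Run7.h150.Rot.Main

set_option autoImplicit false

/-!
# Changes in the nodes from windows
-/

namespace Pool.Agent.Run7.h150.Pol

open Pool.Agent.H581R2.Splay Pool.Agent.TH49.Spl Pool.Agent.N724.TW Pool.Agent.Run7.h150.Rot
open Pool.Agent.Y395.SP

lemma cc_monotone (l m r : ℕ) (f : ℕ → ℕ) : Monotone (cc l m r f) :=
  monotone_nat_of_le_succ (cc_mono l m r f)

/-- a visit of the left half followed by a visit of the right half -/
lemma cc_two {l m r : ℕ} {f : ℕ → ℕ} {i i' : ℕ} (hi : l ≤ f i ∧ f i < m) (hii : i < i')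
    (hi' : m ≤ f i' ∧ f i' < r) : cc l m r f i + 1 ≤ cc l m r f (i' + 1) := by
  have key : ∀ d, (stt l m r f (i + 1 + d) = true ∧ cc l m r f i ≤ cc l m r f (i + 1 + d)) ∨
      cc l m r f i + 1 ≤ cc l m r f (i + 1 + d) := by
    intro d
    induction d with
    | zero =>
      left
      refine ⟨?_, ?_⟩
      · simp [stt, nxt, hi]
      · exact cc_monotone l m r f (by omega)
    | succ d ih =>
      have hmono := cc_mono l m r f (i + 1 + d)
      rw [show i + 1 + (d + 1) = (i + 1 + d) + 1 by omega]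
      rcases ih with ⟨h1, h2⟩ | h1
      · by_cases a1 : l ≤ f (i + 1 + d) ∧ f (i + 1 + d) < m
        · left
          refine ⟨?_, by omega⟩
          rw [stt, nxt, if_pos a1]
        · by_cases a2 : m ≤ f (i + 1 + d) ∧ f (i + 1 + d) < r
          · right
            rw [cc, inc, if_pos ⟨a1, a2, h1⟩]; omega
          · left
            refine ⟨?_, by omega⟩
            rw [stt, nxt, if_neg a1, if_neg a2]
            exact h1
      · right; omega
  have hmono := cc_mono l m r f i'
  obtain ⟨d, rfl⟩ : ∃ d, i' = i + 1 + d := ⟨i' - (i + 1), by omega⟩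
  rcases key d with ⟨h1, h2⟩ | h1
  · rw [cc, inc, if_pos ⟨by omega, hi', h1⟩]; omega
  · omega

lemma telescope {F : ℕ → ℕ} (hF : Monotone F) {D : ℕ} {Q : ℕ → Prop} [DecidablePred Q]
    (hQ : ∀ j, Q j → F j + 1 ≤ F (j + D)) (M : ℕ) : Nat.count Q M ≤ D * F (M + D) := by
  have key : Nat.count Q M ≤ ∑ i ∈ Finset.range D, F (M + i) := by
    induction M with
    | zero => simp
    | succ M ih =>
      have h1 : ∑ i ∈ Finset.range D, F (M + 1 + i) + F M =
          ∑ i ∈ Finset.range D, F (M + i) + F (M + D) := by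
        have h2 := Finset.sum_range_succ (fun i => F (M + i)) D
        have h3 := Finset.sum_range_succ' (fun i => F (M + i)) D
        rw [h2] at h3
        simp only [add_zero] at h3
        rw [h3]
        congr 1
        refine Finset.sum_congr rfl fun i _ => ?_
        congr 1
        omega
      rw [Nat.count_succ]
      have h4 : F M ≤ F (M + D) := hF (by omega)
      split_ifs with h5
      · have := hQ M h5
        omega
      · omega
  refine key.trans ?_
  calc ∑ i ∈ Finset.range D, F (M + i) ≤ ∑ i ∈ Finset.range D, F (M + D) := by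
        refine Finset.sum_le_sum fun i hi => hF ?_
        rw [Finset.mem_range] at hi
        omega
    _ = D * F (M + D) := by rw [Finset.sum_const, Finset.card_range, smul_eq_mul]

variable {n : ℕ} [NeZero n]

/-- counting in blocks -/
lemma count_le (Q : ZMod n → Prop) [DecidablePred Q] (P : ℕ) :
    Nat.count (fun j : ℕ => Q (j : ZMod n)) (P * n) ≤
      P * (Finset.univ.filter fun x : ZMod n => Q x).card := by
  have hbase : Nat.count (fun j : ℕ => Q (j : ZMod n)) n ≤
      (Finset.univ.filter fun x : ZMod n => Q x).card := by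
    rw [Nat.count_eq_card_filter_range]
    refine Finset.card_le_card_of_injOn (fun j : ℕ => (j : ZMod n)) ?_ ?_
    · intro j hj
      have := (Finset.mem_filter.1 hj).2
      exact Finset.mem_filter.2 ⟨Finset.mem_univ _, this⟩
    · intro i hi j hj hij
      have hi' := Finset.mem_range.1 (Finset.mem_of_mem_filter i hi)
      have hj' := Finset.mem_range.1 (Finset.mem_of_mem_filter j hj)
      have h1 : ((i : ℕ) : ZMod n) = ((j : ℕ) : ZMod n) := hij
      rw [ZMod.natCast_eq_natCast_iff', Nat.mod_eq_of_lt hi', Nat.mod_eq_of_lt hj'] at h1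
      exact h1
  induction P with
  | zero => simp
  | succ P ih =>
    rw [Nat.succ_mul, Nat.count_add, Nat.succ_mul]
    refine Nat.add_le_add ih ?_
    have : (fun k : ℕ => Q ((P * n + k : ℕ) : ZMod n)) = fun k : ℕ => Q (k : ZMod n) := by
      funext k
      push_cast
      simp
    simp only [this]
    exact hbase

/-- the interval of the residues of `l, ..., l + κ - 1` -/
def arc (n l κ : ℕ) : Finset (ZMod n) := (Finset.range κ).image fun y : ℕ => ((l + y : ℕ) : ZMod n)

lemma card_arc {l κ : ℕ} (h : l + κ ≤ n) : (arc n l κ).card = κ := by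
  unfold arc
  rw [Finset.card_image_of_injOn, Finset.card_range]
  intro i hi j hj hij
  have hi' : i < κ := by simpa using hi
  have hj' : j < κ := by simpa using hj
  have h1 : ((l + i : ℕ) : ZMod n) = ((l + j : ℕ) : ZMod n) := hij
  rw [ZMod.natCast_eq_natCast_iff', Nat.mod_eq_of_lt (by omega), Nat.mod_eq_of_lt (by omega)] at h1
  omega

lemma ph_pos {l κ : ℕ} (h : l + 2 * κ ≤ n) {x : ZMod n}
    (hx : ph (arc n l κ) (arc n 0 κ) x ≠ 0) : l ≤ x.val ∧ x.val < l + 2 * κ := by
  unfold ph at hx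
  obtain ⟨y, hy, h1⟩ := Finset.exists_ne_zero_of_sum_ne_zero hx
  obtain ⟨z, hz, h2⟩ := Finset.exists_ne_zero_of_sum_ne_zero h1
  unfold arc at hy hz
  rw [Finset.mem_image] at hy hz
  obtain ⟨i, hi, rfl⟩ := hy
  obtain ⟨j, hj, rfl⟩ := hz
  rw [Finset.mem_range] at hi hj
  have h3 : x - ((l + i : ℕ) : ZMod n) - ((0 + j : ℕ) : ZMod n) = 0 := by
    by_contra hcon
    exact h2 (if_neg hcon)
  have h4 : x = ((l + i + j : ℕ) : ZMod n) := by
    have : x = ((l + i : ℕ) : ZMod n) + ((0 + j : ℕ) : ZMod n) := by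
      linear_combination h3
    rw [this]; push_cast; ring
  rw [h4, ZMod.val_natCast, Nat.mod_eq_of_lt (by omega)]
  omega

/-- a window contains a visit of the interval -/
def Vis (X : ZMod n → ZMod n) (W l k : ℕ) (j : ZMod n) : Prop :=
  ∃ u < W, l ≤ (X (j + ((u : ℕ) : ZMod n))).val ∧ (X (j + ((u : ℕ) : ZMod n))).val < l + k

open Classical in
lemma few_not_vis {X : ZMod n → ZMod n} {B : ℝ} (hX : Pair X B) (hB0 : 0 ≤ B) {W κ l : ℕ}
    (hW : W ≤ n) (hn2 : 2 ≤ n) (hκ : 1 ≤ κ) (hl : l + 2 * κ ≤ n)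
    (h1 : 64 * n * B ≤ (κ : ℝ) ^ 2) (h2 : 32 * n ≤ W * κ) :
    8 * (Finset.univ.filter fun j : ZMod n => ¬ Vis X W l (2 * κ) j).card ≤ n := by
  have hI : (arc n l κ).card = κ := card_arc (by omega)
  have hJ : (arc n 0 κ).card = κ := card_arc (by omega)
  refine few_empty (arc n l κ) (arc n 0 κ) (by rw [hI, hJ]) hX hB0 hW hn2 (by omega) (by omega)
    (by rw [hI]; exact h1) (by rw [hI]; exact h2) _ ?_
  intro j hj
  have hj' := (Finset.mem_filter.1 hj).2
  unfold SW
  refine Finset.sum_eq_zero fun u hu => ?_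
  by_contra hcon
  apply hj'
  exact ⟨u, Finset.mem_range.1 hu, ph_pos hl hcon⟩

/-- the number of changes in a node -/
lemma node_ge {X : ZMod n → ZMod n} {B : ℝ} (hX : Pair X B) (hB0 : 0 ≤ B) {κ l N : ℕ}
    (hκ : 512 ≤ κ) (hl : l + 4 * κ ≤ n) (h1 : 64 * n * B ≤ (κ : ℝ) ^ 2) :
    (N / n) * κ ≤ 256 * cnt l (l + 2 * κ) (l + 4 * κ) false
      ((List.range N).map fun i : ℕ => (X (i : ZMod n)).val) := by
  classical
  rw [cnt_range]
  set f : ℕ → ℕ := fun i : ℕ => (X (i : ZMod n)).val with hf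
  set F := cc l (l + 2 * κ) (l + 4 * κ) f with hF
  obtain ⟨W, hW⟩ : ∃ W, W = 32 * n / κ + 1 := ⟨_, rfl⟩
  have hn : 0 < n := Nat.pos_of_ne_zero (NeZero.ne n)
  have hW1 : 32 * n ≤ W * κ := by
    have := Nat.lt_mul_div_succ (32 * n) (show 0 < κ by omega)
    calc 32 * n ≤ κ * (32 * n / κ + 1) := this.le
      _ = W * κ := by rw [hW, Nat.mul_comm]
  have hW2 : W * κ ≤ 33 * n := by
    have := Nat.div_mul_le_self (32 * n) κ
    rw [hW, Nat.add_mul, one_mul]; omega
  have hW3 : 8 * W ≤ n := by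
    by_contra hcon
    have h3 : n + 1 ≤ 8 * W := by omega
    have h4 : (n + 1) * κ ≤ 8 * W * κ := Nat.mul_le_mul_right _ h3
    have h5 : 8 * W * κ = 8 * (W * κ) := by ring
    have h6 : n * 512 ≤ n * κ := Nat.mul_le_mul_left _ hκ
    rw [h5, Nat.add_mul, one_mul] at h4
    omega
  rcases Nat.eq_zero_or_pos (N / n) with hP | hP
  · rw [hP]; simp
  set P := N / n with hPd
  -- good windows
  let G : ℕ → Prop := fun j => Vis X W l (2 * κ) (j : ZMod n) ∧
    Vis X W (l + 2 * κ) (2 * κ) ((j : ZMod n) + ((W : ℕ) : ZMod n))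
  have hG : ∀ j, G j → F j + 1 ≤ F (j + 2 * W) := by
    rintro j ⟨⟨u, hu, hu1, hu2⟩, ⟨v, hv, hv1, hv2⟩⟩
    have e1 : f (j + u) = (X ((j : ZMod n) + ((u : ℕ) : ZMod n))).val := by
      rw [hf]; push_cast; rfl
    have e2 : f (j + W + v) =
        (X ((j : ZMod n) + ((W : ℕ) : ZMod n) + ((v : ℕ) : ZMod n))).val := by
      rw [hf]; push_cast; rfl
    have h3 := cc_two (l := l) (m := l + 2 * κ) (r := l + 4 * κ) (f := f) (i := j + u)
      (i' := j + W + v) (by rw [e1]; exact ⟨hu1, hu2⟩) (by omega)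
      (by rw [e2]; exact ⟨hv1, by omega⟩)
    have h4 : F j ≤ F (j + u) := cc_monotone _ _ _ _ (by omega)
    have h5 : F (j + W + v + 1) ≤ F (j + 2 * W) := cc_monotone _ _ _ _ (by omega)
    have h6 : F (j + u) + 1 ≤ F (j + W + v + 1) := h3
    omega
  have hcount := telescope (cc_monotone l (l + 2 * κ) (l + 4 * κ) f) (D := 2 * W) (Q := G) hG
    (P * n - 2 * W)
  have hPn : P * n ≤ N := Nat.div_mul_le_self N n
  have hPn2 : n ≤ P * n := Nat.le_mul_of_pos_left n hP
  have h7 : P * n - 2 * W + 2 * W ≤ N := by omega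
  have h8 : F (P * n - 2 * W + 2 * W) ≤ F N := cc_monotone _ _ _ _ h7
  -- the bad windows
  let Q1 : ZMod n → Prop := fun x => ¬ Vis X W l (2 * κ) x
  let Q2 : ZMod n → Prop := fun x => ¬ Vis X W (l + 2 * κ) (2 * κ) (x + ((W : ℕ) : ZMod n))
  have c1 : 8 * (Finset.univ.filter fun x : ZMod n => Q1 x).card ≤ n :=
    few_not_vis hX hB0 (by omega) (by omega) (by omega) (by omega) h1 hW1
  have c2 : 8 * (Finset.univ.filter fun x : ZMod n => Q2 x).card ≤ n := by
    have e : (Finset.univ.filter fun x : ZMod n => Q2 x).card =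
        (Finset.univ.filter fun x : ZMod n => ¬ Vis X W (l + 2 * κ) (2 * κ) x).card := by
      refine Finset.card_bij (fun x _ => x + ((W : ℕ) : ZMod n)) ?_ ?_ ?_
      · intro x hx
        exact Finset.mem_filter.2 ⟨Finset.mem_univ _, (Finset.mem_filter.1 hx).2⟩
      · intro x _ y _ hxy
        exact add_right_cancel hxy
      · intro y hy
        refine ⟨y - ((W : ℕ) : ZMod n), ?_, by ring⟩
        refine Finset.mem_filter.2 ⟨Finset.mem_univ _, ?_⟩
        have h9 := (Finset.mem_filter.1 hy).2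
        show ¬ Vis X W (l + 2 * κ) (2 * κ) (y - ((W : ℕ) : ZMod n) + ((W : ℕ) : ZMod n))
        rw [sub_add_cancel]
        exact h9
    rw [e]
    exact few_not_vis hX hB0 (by omega) (by omega) (by omega) (by omega) h1 hW1
  have d1 := count_le Q1 P
  have d2 := count_le Q2 P
  have d3 : ∀ M : ℕ, M ≤ Nat.count G M + Nat.count (fun j : ℕ => Q1 (j : ZMod n)) M +
      Nat.count (fun j : ℕ => Q2 (j : ZMod n)) M := by
    intro M
    induction M with
    | zero => simp
    | succ M ih =>
      rw [Nat.count_succ, Nat.count_succ, Nat.count_succ]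
      by_cases b1 : Q1 (M : ZMod n)
      · rw [if_pos b1]; split_ifs <;> omega
      · by_cases b2 : Q2 (M : ZMod n)
        · rw [if_pos b2]; split_ifs <;> omega
        · have b3 : G M := ⟨not_not.1 b1, not_not.1 b2⟩
          rw [if_pos b3]; split_ifs <;> omega
  have d4 := d3 (P * n - 2 * W)
  have d5 : Nat.count (fun j : ℕ => Q1 (j : ZMod n)) (P * n - 2 * W) ≤
      Nat.count (fun j : ℕ => Q1 (j : ZMod n)) (P * n) := Nat.count_monotone _ (by omega)
  have d6 : Nat.count (fun j : ℕ => Q2 (j : ZMod n)) (P * n - 2 * W) ≤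
      Nat.count (fun j : ℕ => Q2 (j : ZMod n)) (P * n) := Nat.count_monotone _ (by omega)
  have d7 : 8 * (P * (Finset.univ.filter fun x : ZMod n => Q1 x).card) ≤ P * n := by
    calc _ = P * (8 * (Finset.univ.filter fun x : ZMod n => Q1 x).card) := by ring
      _ ≤ P * n := Nat.mul_le_mul_left _ c1
  have d8 : 8 * (P * (Finset.univ.filter fun x : ZMod n => Q2 x).card) ≤ P * n := by
    calc _ = P * (8 * (Finset.univ.filter fun x : ZMod n => Q2 x).card) := by ring
      _ ≤ P * n := Nat.mul_le_mul_left _ c2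
  have hcount2 : Nat.count G (P * n - 2 * W) ≤ 2 * W * F N :=
    hcount.trans (Nat.mul_le_mul_left _ h8)
  have h9 : P * n ≤ 4 * (W * F N) := by
    have e : 2 * W * F N = 2 * (W * F N) := by ring
    rw [e] at hcount2
    omega
  have h10 : P * n * κ ≤ 4 * (W * F N) * κ := Nat.mul_le_mul_right _ h9
  have h11 : 4 * (W * F N) * κ = 4 * ((W * κ) * F N) := by ring
  have h12 : (W * κ) * F N ≤ (33 * n) * F N := Nat.mul_le_mul_right _ hW2
  have h13 : n * (P * κ) ≤ n * (256 * F N) := by
    calc n * (P * κ) = P * n * κ := by ring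
      _ ≤ 4 * ((33 * n) * F N) := by rw [h11] at h10; omega
      _ ≤ n * (256 * F N) := by
        have : 4 * ((33 * n) * F N) = n * (132 * F N) := by ring
        rw [this]
        exact Nat.mul_le_mul_left _ (Nat.mul_le_mul_right _ (by norm_num))
  exact Nat.le_of_mul_le_mul_left h13 hn

end Pool.Agent.Run7.h150.Pol
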